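import Pool.Agent.helper41.G5.SpecG

/-!
# Row gGALL of project d2: from the families to the whole system (helper51)

`Mop f = Σ_φ (#fam φ/q) Tf_φ f`, triangle inequality in `L^2`.
-/

set_option autoImplicit false

open Filter Topology MeasureTheory
open scoped commutatorElement

namespace Pool.Agent.helper90.DH

open Pool.Agent.helper64.D2

/-- scaling. -/
theorem gGALL_smul (a : ℝ) (ha : 0 ≤ a) (u : ℝ → ℝ) : √(nsq (fun x => a * u x)) = a * √(nsq u) := by
  have h1 : nsq (fun x => a * u x) = a ^ 2 * nsq u := by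
    unfold nsq
    rw [← integral_const_mul]
    congr 1
    funext x
    ring
  rw [h1, Real.sqrt_mul (sq_nonneg a), Real.sqrt_sq ha]

/-- the triangle inequality for finite sums. -/
theorem gGALL_sum (hL2T : gL2T_stmt) (S : Finset ℕ) (u : ℕ → ℝ → ℝ) (hu : ∀ i ∈ S, MemLp (u i) 2 volume) :
    √(nsq (fun x => ∑ i ∈ S, u i x)) ≤ ∑ i ∈ S, √(nsq (u i)) := by
  classical
  induction S using Finset.induction_on with
  | empty => simp [nsq]
  | insert a S ha ih =>
    have h1 : (fun x => ∑ i ∈ insert a S, u i x) = fun x => u a x + ∑ i ∈ S, u i x := by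
      funext x
      rw [Finset.sum_insert ha]
    rw [h1, Finset.sum_insert ha]
    have h2 : MemLp (fun x => ∑ i ∈ S, u i x) 2 volume := by
      have := memLp_finsetSum S (fun i hi => hu i (Finset.mem_insert_of_mem hi))
      exact this
    calc √(nsq (fun x => u a x + ∑ i ∈ S, u i x)) ≤ √(nsq (u a)) + √(nsq (fun x => ∑ i ∈ S, u i x)) :=
          hL2T.1 _ _ (hu a (Finset.mem_insert_self _ _)) h2
      _ ≤ _ := by
          have := ih (fun i hi => hu i (Finset.mem_insert_of_mem hi))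
          linarith

/-- the number of the labels of a family. -/
theorem gGALL_card (q M φ : ℕ) : (fam q M φ).card ≤ q / M + 1 := by
  rw [← Finset.card_range (q / M + 1)]
  refine Finset.card_le_card_of_injOn (fun i => i / M) ?_ ?_
  · intro i hi
    have hi' := Finset.mem_filter.1 (Finset.mem_coe.1 hi)
    have h1 : i < q := Finset.mem_range.1 hi'.1
    refine Finset.mem_coe.2 (Finset.mem_range.2 ?_)
    have : i / M ≤ q / M := Nat.div_le_div_right h1.le
    show i / M < q / M + 1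
    omega
  · intro i hi j hj hij
    have hi' := (Finset.mem_filter.1 (Finset.mem_coe.1 hi)).2
    have hj' := (Finset.mem_filter.1 (Finset.mem_coe.1 hj)).2
    have hij' : i / M = j / M := hij
    rw [← Nat.div_add_mod i M, ← Nat.div_add_mod j M, hi', hj', hij']

/-- the row gGALL. -/
theorem gGALL (hNIB : gNIB_stmt) (hL2T : gL2T_stmt) (hFNC : gFNC_stmt) : GALL_stmt := by
  refine ⟨4, by norm_num, ?_⟩
  intro q w0 c s lam hq hc hlam ⟨φ0, hφ0⟩ f hPA hSu hEs
  obtain ⟨M, hM⟩ : ∃ M : ℕ, M = 2 ^ w0 := ⟨_, rfl⟩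
  have hM1 : 1 ≤ M := by rw [hM]; exact Nat.one_le_two_pow
  have hMq : M * M ≤ q := by
    have : M * M = 4 ^ w0 := by rw [hM, ← mul_pow]; norm_num
    rw [this]; exact hq
  have hM2 : (M : ℝ) = 2 ^ w0 := by rw [hM]; push_cast; rfl
  rw [← hM] at hφ0
  have hq0 : 0 < q := lt_of_lt_of_le (Nat.mul_pos hM1 hM1) hMq
  have hqR : (0 : ℝ) < q := by exact_mod_cast hq0
  have hMR : (1 : ℝ) ≤ M := by exact_mod_cast hM1
  have hMqR : (M : ℝ) * M ≤ q := by exact_mod_cast hMq
  have hn0 : 0 ≤ nsq f := integral_nonneg (fun x => sq_nonneg _)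
  -- the maps
  have hNL : ∀ i < q, NL (ev (c i)) := by
    intro i hi x y hxy
    have := (hNIB (c i) (1 / 100) (by norm_num) (hc i hi)).2.2 y x
    rw [abs_of_nonneg (by linarith : (0 : ℝ) ≤ y - x)] at this
    have h2 := abs_le.1 this
    constructor <;> linarith [h2.1, h2.2]
  have hLp : ∀ i < q, MemLp (fun x => f (ev (c i) x)) 2 volume := fun i hi => (hFNC (s + 1) f (ev (c i)) hPA hSu (hNL i hi)).2.2.2.2.2.1
  have hns : ∀ i < q, nsq (fun x => f (ev (c i) x)) ≤ 10 / 9 * nsq f := fun i hi => (hFNC (s + 1) f (ev (c i)) hPA hSu (hNL i hi)).2.2.2.2.2.2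
  have hfam : ∀ φ, ∀ i ∈ fam q M φ, i < q := fun φ i hi => Finset.mem_range.1 (Finset.mem_filter.1 hi).1
  have hTLp : ∀ φ, MemLp (Tf q M φ c f) 2 volume := by
    intro φ
    have h1 := memLp_finsetSum (fam q M φ) (fun i hi => hLp i (hfam φ i hi))
    have h2 := h1.const_mul (((fam q M φ).card : ℝ)⁻¹)
    refine h2.congr_norm ?_ ?_
    · have h3 : Tf q M φ c f = fun x => (((fam q M φ).card : ℝ)⁻¹) * (∑ i ∈ fam q M φ, f (ev (c i) x)) := by
        funext x
        unfold Tf
        rw [div_eq_inv_mul]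
      rw [h3]
      exact h2.1
    · refine Filter.Eventually.of_forall fun x => ?_
      show ‖(((fam q M φ).card : ℝ)⁻¹) * (∑ i ∈ fam q M φ, f (ev (c i) x))‖ = ‖Tf q M φ c f x‖
      unfold Tf
      rw [div_eq_inv_mul]
  -- the decomposition
  have hdec : Mop q c f = fun x => ∑ φ ∈ Finset.range M, ((fam q M φ).card / (q : ℝ)) * Tf q M φ c f x := by
    funext x
    unfold Mop Tf
    have h1 : ∑ i ∈ Finset.range q, f (ev (c i) x) = ∑ φ ∈ Finset.range M, ∑ i ∈ fam q M φ, f (ev (c i) x) := by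
      unfold fam
      rw [Finset.sum_fiberwise_of_maps_to]
      intro i _
      exact Finset.mem_range.2 (Nat.mod_lt _ hM1)
    rw [h1, Finset.sum_div]
    refine Finset.sum_congr rfl fun φ _ => ?_
    rcases Nat.eq_zero_or_pos (fam q M φ).card with h | h
    · have h' := Finset.card_eq_zero.1 h
      simp [h']
    · have h' : ((fam q M φ).card : ℝ) ≠ 0 := by
        have : (0 : ℝ) < (fam q M φ).card := by exact_mod_cast h
        exact this.ne'
      field_simp
  have hcard : ∑ φ ∈ Finset.range M, ((fam q M φ).card / (q : ℝ)) = 1 := by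
    rw [← Finset.sum_div]
    have h1 : (Finset.range q).card = ∑ φ ∈ Finset.range M, (fam q M φ).card :=
      Finset.card_eq_sum_card_fiberwise (fun i _ => Finset.mem_coe.2 (Finset.mem_range.2 (Nat.mod_lt _ hM1)))
    rw [Finset.card_range] at h1
    have h2 : (q : ℝ) = ∑ φ ∈ Finset.range M, ((fam q M φ).card : ℝ) := by exact_mod_cast h1
    rw [← h2, div_self hqR.ne']
  -- the estimates
  have hgood : ∀ φ < M, φ ≠ φ0 → √(nsq (Tf q M φ c f)) ≤ lam * √(nsq f) := by
    intro φ hφ hne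
    have h1 := hφ0 φ hφ hne f hPA hSu hEs
    calc √(nsq (Tf q M φ c f)) ≤ √(lam ^ 2 * nsq f) := Real.sqrt_le_sqrt h1
      _ = lam * √(nsq f) := by rw [Real.sqrt_mul (sq_nonneg _), Real.sqrt_sq hlam]
  have hbad : ∀ φ, √(nsq (Tf q M φ c f)) ≤ 2 * √(nsq f) := by
    intro φ
    have h1 : nsq (Tf q M φ c f) ≤ 4 * nsq f := by
      rcases Finset.eq_empty_or_nonempty (fam q M φ) with h | h
      · have h2 : nsq (Tf q M φ c f) = 0 := by
          unfold nsq Tf
          simp [h]
        rw [h2]; linarith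
      · have h2 := hL2T.2 ℕ (fam q M φ) (fun i x => f (ev (c i) x)) (10 / 9 * nsq f) h
          (fun i hi => ⟨hLp i (hfam φ i hi), hns i (hfam φ i hi)⟩)
        have h3 : nsq (Tf q M φ c f) ≤ 10 / 9 * nsq f := h2
        linarith
    calc √(nsq (Tf q M φ c f)) ≤ √(2 ^ 2 * nsq f) := Real.sqrt_le_sqrt (by linarith)
      _ = 2 * √(nsq f) := by rw [Real.sqrt_mul (by norm_num), Real.sqrt_sq (by norm_num)]
  have hac : ∀ φ, ((fam q M φ).card / (q : ℝ)) ≤ 2 / M := by
    intro φ
    have h1 : ((fam q M φ).card : ℝ) ≤ ((q / M : ℕ) : ℝ) + 1 := by exact_mod_cast gGALL_card q M φ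
    have h2 : ((q / M : ℕ) : ℝ) ≤ (q : ℝ) / M := Nat.cast_div_le
    have h3 : (1 : ℝ) ≤ (q : ℝ) / M := by
      rw [le_div_iff₀ (by linarith)]
      nlinarith
    rw [div_le_div_iff₀ hqR (by linarith)]
    have h4 : ((fam q M φ).card : ℝ) ≤ 2 * ((q : ℝ) / M) := by linarith
    have h5 : (q : ℝ) / M * M = q := div_mul_cancel₀ _ (by linarith)
    nlinarith
  have hmain : √(nsq (Mop q c f)) ≤ 4 * (lam + 1 / 2 ^ w0) * √(nsq f) := by
    rw [hdec]
    have h1 := gGALL_sum hL2T (Finset.range M) (fun φ x => ((fam q M φ).card / (q : ℝ)) * Tf q M φ c f x) (fun φ _ => (hTLp φ).const_mul _)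
    have h0 : ∀ φ, 0 ≤ ((fam q M φ).card / (q : ℝ)) := fun φ => by positivity
    have hF : 0 ≤ √(nsq f) := Real.sqrt_nonneg _
    refine h1.trans ?_
    have h2 : ∀ φ ∈ Finset.range M, √(nsq (fun x => ((fam q M φ).card / (q : ℝ)) * Tf q M φ c f x)) ≤
        ((fam q M φ).card / (q : ℝ)) * (lam * √(nsq f)) + (if φ = φ0 then 2 / M * (2 * √(nsq f)) else 0) := by
      intro φ hφ
      rw [gGALL_smul _ (h0 φ)]
      by_cases h : φ = φ0
      · rw [if_pos h]
        have k1 : ((fam q M φ).card / (q : ℝ)) * √(nsq (Tf q M φ c f)) ≤ 2 / M * (2 * √(nsq f)) :=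
          mul_le_mul (hac φ) (hbad φ) (Real.sqrt_nonneg _) (by positivity)
        have k2 : 0 ≤ ((fam q M φ).card / (q : ℝ)) * (lam * √(nsq f)) := mul_nonneg (h0 φ) (mul_nonneg hlam hF)
        linarith
      · rw [if_neg h, add_zero]
        exact mul_le_mul_of_nonneg_left (hgood φ (Finset.mem_range.1 hφ) h) (h0 φ)
    refine (Finset.sum_le_sum h2).trans ?_
    rw [Finset.sum_add_distrib, ← Finset.sum_mul, hcard, one_mul]
    have h3 : ∑ φ ∈ Finset.range M, (if φ = φ0 then 2 / (M : ℝ) * (2 * √(nsq f)) else 0) ≤ 2 / M * (2 * √(nsq f)) := by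
      rw [Finset.sum_ite_eq']
      split_ifs
      · exact le_refl _
      · positivity
    rw [← hM2]
    have h4 : 2 / (M : ℝ) * (2 * √(nsq f)) = 4 * (1 / M) * √(nsq f) := by ring
    nlinarith [mul_nonneg hlam hF]
  have h5 : nsq (Mop q c f) = √(nsq (Mop q c f)) ^ 2 := (Real.sq_sqrt (integral_nonneg (fun x => sq_nonneg _))).symm
  have h6 : nsq f = √(nsq f) ^ 2 := (Real.sq_sqrt hn0).symm
  rw [h5, h6, ← mul_pow]
  exact pow_le_pow_left₀ (Real.sqrt_nonneg _) hmain 2

end Pool.Agent.helper90.DH
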